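import Pool.Agent.Run7.h146.Met.I2

/-! # GI: the meteors which cover the origin at time `t` -/

set_option autoImplicit false

open MeasureTheory Filter Topology ENNReal

namespace Run7.h803.Met

open Run7.h146.Met

theorem gi_aux {d : ℕ} {ε : ℝ} [IsProbabilityMeasure (sig d)] (B : Set (V d)) (t : ℝ)
    (U : Set (V d)) (hU : MeasurableSet U) :
    mB B {z | ‖pos z t‖ ≤ ε ∧ z.2 ∈ U} ≤ volume (Metric.closedBall (0 : V d) ε) * sig d U := by
  have hm : MeasurableSet {z : X d | ‖pos z t‖ ≤ ε ∧ z.2 ∈ U} := by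
    have hc : Continuous fun z : X d => ‖pos z t‖ := by
      unfold pos
      fun_prop
    have h1 : MeasurableSet {z : X d | ‖pos z t‖ ≤ ε} :=
      measurableSet_le hc.measurable measurable_const
    exact h1.inter (hU.preimage measurable_snd)
  unfold mB
  rw [Measure.prod_apply_symm hm]
  have h1 : ∀ y : V d, (volume.restrict B) ((fun x => (x, y)) ⁻¹' {z : X d | ‖pos z t‖ ≤ ε ∧ z.2 ∈ U})
      ≤ U.indicator (fun _ => volume (Metric.closedBall (0 : V d) ε)) y := by
    intro y
    by_cases hy : y ∈ U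
    · rw [Set.indicator_of_mem hy]
      refine (Measure.restrict_apply_le _ _).trans ?_
      rw [← Measure.addHaar_closedBall_center (volume : Measure (V d)) (-(t • y)) ε]
      refine measure_mono ?_
      rintro x ⟨hx, _⟩
      rw [Metric.mem_closedBall, dist_eq_norm, sub_neg_eq_add]
      exact hx
    · rw [Set.indicator_of_notMem hy]
      have : (fun x => (x, y)) ⁻¹' {z : X d | ‖pos z t‖ ≤ ε ∧ z.2 ∈ U} = ∅ := by
        ext x
        simp [hy]
      rw [this, measure_empty]
  refine (lintegral_mono h1).trans ?_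
  rw [lintegral_indicator hU, setLIntegral_const]

theorem t_GI : S_MB → S_CAP → S_GI := by
  intro hMB hCAP d ε hd hε
  obtain ⟨hprob, -⟩ := hMB d hd
  have hW : volume (Metric.closedBall (0 : V d) ε) ≠ ⊤ := measure_closedBall_lt_top.ne
  set W := volume (Metric.closedBall (0 : V d) ε) with hWd
  obtain ⟨C', hC', hcap⟩ : ∃ C' : ℝ, 0 ≤ C' ∧ (2 ≤ d → ∀ (v : V d) (δ : ℝ), ‖v‖ = 1 → 0 < δ →
      sig d {w | ‖w - v‖ ≤ δ} ≤ ENNReal.ofReal (C' * δ)) := by
    by_cases h2 : 2 ≤ d
    · obtain ⟨C, hC, h⟩ := hCAP d h2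
      exact ⟨C, zero_le_one.trans hC, fun _ => h⟩
    · exact ⟨0, le_rfl, fun h => absurd h h2⟩
  have hWr : 0 ≤ W.toReal := ENNReal.toReal_nonneg
  refine ⟨1 + W.toReal + W.toReal * C', by nlinarith [mul_nonneg hWr hC'], ?_⟩
  intro B t _
  refine ⟨?_, ?_⟩
  · have h := gi_aux (ε := ε) B t Set.univ MeasurableSet.univ
    rw [measure_univ, mul_one, ← hWd] at h
    have e : {z : X d | ‖pos z t‖ ≤ ε ∧ z.2 ∈ Set.univ} = {z : X d | ‖pos z t‖ ≤ ε} := by
      ext z
      simp
    rw [e] at h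
    refine h.trans ?_
    rw [← ENNReal.ofReal_toReal hW]
    exact ENNReal.ofReal_le_ofReal (by
      rw [ENNReal.toReal_ofReal hWr]
      nlinarith [mul_nonneg hWr hC'])
  · intro h2 v δ hv hδ
    have hU : MeasurableSet {w : V d | ‖w - v‖ ≤ δ} :=
      measurableSet_le (by fun_prop) measurable_const
    have h := gi_aux (ε := ε) B t _ hU
    rw [← hWd] at h
    refine h.trans ?_
    refine (mul_le_mul_right (hcap h2 v δ hv hδ) W).trans ?_
    conv_lhs => rw [← ENNReal.ofReal_toReal hW]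
    rw [← ENNReal.ofReal_mul hWr]
    refine ENNReal.ofReal_le_ofReal ?_
    nlinarith [mul_nonneg hWr hδ.le, hδ]

end Run7.h803.Met
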