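import Pool.Agent.Run7.h146.Met.I2

/-! # PAIR: the Mecke formula for two existing meteors -/

set_option autoImplicit false

open MeasureTheory Filter Topology ENNReal

namespace Run7.h803.Met

open Run7.h146.Met

theorem res_ins {d : ℕ} (C : Set (V d)) (z : X d) (F : Finset (X d)) (h : z.1 ∉ C) :
    res C (ins z F) = res C F := by
  classical
  unfold res ins
  ext x
  simp only [Finset.mem_filter, Finset.mem_insert]
  constructor
  · rintro ⟨rfl | hx, hxC⟩
    · exact absurd hxC h
    · exact ⟨hx, hxC⟩
  · rintro ⟨hx, hxC⟩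
    exact ⟨Or.inr hx, hxC⟩

section TM

variable {α β γ : Type} [MeasurableSpace α] [MeasurableSpace β] [MeasurableSpace γ]

theorem tm_par {h : β → Finset α → ℝ≥0∞} (hh : TM h) {f : γ → β} (hf : Measurable f) :
    TM (fun (c : γ) F => h (f c) F) := by
  intro n
  exact (hh n).comp ((hf.comp measurable_fst).prodMk measurable_snd)

theorem tm_mul {h k : β → Finset α → ℝ≥0∞} (hh : TM h) (hk : TM k) :
    TM (fun (c : β) F => h c F * k c F) := fun n => (hh n).mul (hk n)

theorem tm_iteLT (c : ℝ≥0∞) {u h : β → Finset α → ℝ≥0∞} (hu : TM u) (hh : TM h) :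
    TM (fun (b : β) F => if c < u b F then h b F else 0) := fun n =>
  Measurable.ite (measurableSet_lt measurable_const (hu n)) (hh n) measurable_const

theorem tm_iteS {S : Set β} (hS : MeasurableSet S) [DecidablePred fun b => b ∈ S]
    {h : β → Finset α → ℝ≥0∞} (hh : TM h) :
    TM (fun (b : β) F => if b ∈ S then 0 else h b F) := fun n =>
  Measurable.ite (hS.preimage measurable_fst) measurable_const (hh n)

theorem tm_fun {h : β → ℝ≥0∞} (hh : Measurable h) :
    TM (fun (b : β) (_ : Finset α) => h b) := fun _ => hh.comp measurable_fst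

end TM

theorem t_PAIR : S_PO1 → S_PO2 → S_PO3 → S_MK → S_MB → S_DM → S_MEAS → S_PAIR := by
  intro hPO1 hPO2 hPO3 hMK hMB hDM hMEAS d ε hd hε t t' R B A g hB hBf hA hg hg0
  classical
  obtain ⟨hprob, -, -, hMB'⟩ := hMB d hd
  obtain ⟨hfin, hna, -, -⟩ := hMB' B hB hBf
  obtain ⟨hres, -, -, -, -, -, hal2, -⟩ := hMEAS d ε hd hε
  obtain ⟨hP, -, hsec, hcon⟩ := hPO1 d (mB B)
  obtain ⟨hmk, hpt⟩ := hMK d (mB B)
  have hdt := hDM d ε hε
  -- the indicator
  set J : Finset (X d) → ℝ≥0∞ := fun F => if res (Metric.ball 0 R) F ∈ A then 1 else 0 with hJ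
  have hAm : MeasurableSet {F : Finset (X d) | res (Metric.ball 0 R) F ∈ A} :=
    hres _ Metric.isOpen_ball.measurableSet hA
  have hJm : Measurable J := Measurable.ite hAm measurable_const measurable_const
  -- the basic functional
  set h' : (X d × X d) → Finset (X d) → ℝ≥0∞ := fun b F =>
    J F * (if ENNReal.ofReal t < dt ε F b.1 then
      (if ENNReal.ofReal t' < dt ε F b.2 then g b else 0) else 0) with hh'
  have hh'm : TM h' := by
    refine tm_mul (hcon (X d × X d) J hJm) ?_
    refine tm_iteLT _ (tm_par hdt measurable_fst) ?_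
    exact tm_iteLT _ (tm_par hdt measurable_snd) (tm_fun hg)
  -- first step
  set h1 : X d → Finset (X d) → ℝ≥0∞ := fun z F =>
    ∑ y ∈ F, if (z, y) ∈ {b : X d × X d | b.2 = b.1} then 0 else h' (z, y) F with hh1
  have hh1m : TM h1 := by
    refine hPO3 d (X d) (fun b F => if b ∈ {b : X d × X d | b.2 = b.1} then 0 else h' b F) ?_
    exact tm_iteS (measurableSet_eq_fun measurable_snd measurable_fst) hh'm
  have e1 : ∫⁻ F in {F | res (Metric.ball 0 R) F ∈ A}, (∑ z ∈ F, ∑ y ∈ del z F,
      if ENNReal.ofReal t < dt ε F z ∧ ENNReal.ofReal t' < dt ε F y then g (z, y) else 0)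
      ∂(poi (mB B)) = ∫⁻ F, ∑ z ∈ F, h1 z F ∂(poi (mB B)) := by
    rw [← lintegral_indicator hAm]
    refine lintegral_congr fun F => ?_
    by_cases hF : res (Metric.ball 0 R) F ∈ A
    · rw [Set.indicator_of_mem (by exact hF)]
      refine Finset.sum_congr rfl fun z hz => ?_
      have hJF : J F = 1 := if_pos hF
      simp only [hh1, hh', hJF, one_mul, Set.mem_ofPred_eq]
      have e4 : del z F = F.erase z := by ext a; unfold del; simp only [Finset.mem_erase]
      rw [e4, ← Finset.add_sum_erase F _ hz, if_pos rfl, zero_add]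
      refine Finset.sum_congr rfl fun y hy => ?_
      rw [if_neg (Finset.ne_of_mem_erase hy), ite_and]
    · rw [Set.indicator_of_notMem (by exact hF)]
      have hJF : J F = 0 := if_neg hF
      symm
      refine Finset.sum_eq_zero fun z _ => Finset.sum_eq_zero fun y _ => ?_
      simp only [hh', hJF, zero_mul, ite_self]
  rw [e1, hmk h1 hh1m]
  refine lintegral_congr fun z => ?_
  -- second step
  have hh2m : TM (fun (y : X d) F => h' (z, y) (ins z F)) := by
    refine tm_par (β := (X d × X d) × X d) (h := fun p F => h' p.1 (ins p.2 F))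
      (f := fun y => ((z, y), z)) (hPO2 d (X d × X d) h' hh'm).1 ?_
    fun_prop
  have e2 : ∫⁻ F, h1 z (ins z F) ∂(poi (mB B)) =
      ∫⁻ F, ∑ y ∈ F, h' (z, y) (ins z F) ∂(poi (mB B)) := by
    refine lintegral_congr_ae ?_
    have hz : ∀ᵐ F ∂(poi (mB B)), z ∉ F := by
      rw [ae_iff]
      simpa using hpt z
    filter_upwards [hz] with F hF
    simp only [hh1, Set.mem_ofPred_eq]
    have e3 : ins z F = insert z F := by ext a; unfold ins; simp only [Finset.mem_insert]
    generalize ins z F = G at e3
    rw [e3, Finset.sum_insert hF, if_pos rfl, zero_add]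
    refine Finset.sum_congr rfl fun y hy => ?_
    rw [if_neg]
    rintro rfl
    exact hF hy
  rw [e2, hmk _ hh2m]
  refine lintegral_congr fun y => ?_
  have hsm : MeasurableSet {F : Finset (X d) | res (Metric.ball 0 R) F ∈ A ∧ al2 ε z t y t' F} :=
    hAm.inter (hal2 z y t t')
  rw [← lintegral_indicator_one hsm, ← lintegral_const_mul _ (measurable_one.indicator hsm)]
  refine lintegral_congr fun F => ?_
  by_cases hgz : g (z, y) = 0
  · simp only [hh', hgz, ite_self, mul_zero, zero_mul]
  · have hzy : z.1 ∉ Metric.ball (0 : V d) R ∧ y.1 ∉ Metric.ball (0 : V d) R := by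
      rw [← not_or]
      exact fun h => hgz (hg0 z y h)
    have hr : res (Metric.ball 0 R) (ins z (ins y F)) = res (Metric.ball 0 R) F := by
      rw [res_ins _ _ _ hzy.1, res_ins _ _ _ hzy.2]
    have hJe : J (ins z (ins y F)) = J F := by
      simp only [hJ, hr]
    simp only [hh', hJe, ← ite_and]
    by_cases hF : res (Metric.ball 0 R) F ∈ A
    · have hJF : J F = 1 := if_pos hF
      rw [hJF, one_mul]
      by_cases ha : al2 ε z t y t' F
      · have ha' := ha
        unfold al2 at ha'
        rw [if_pos ha', Set.indicator_of_mem (by exact ⟨hF, ha⟩), Pi.one_apply, mul_one]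
      · have ha' := ha
        unfold al2 at ha'
        rw [if_neg ha', Set.indicator_of_notMem (fun h => ha h.2), mul_zero]
    · have hJF : J F = 0 := if_neg hF
      rw [hJF, zero_mul, Set.indicator_of_notMem (fun h => hF h.1), mul_zero]

end Run7.h803.Met
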